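import Pool.Agent.Helper42.TGX.GoalsD
import Pool.Agent.Helper4.TG.HTAB
import Pool.Agent.Helper60.SG2.NZFT
import Pool.Agent.Helper29.BL.QSN

/-! Packet TGX-NT (MP_a41896_nt): a point of positive height over a number field. -/

set_option autoImplicit false

open Polynomial

namespace Pool.Agent.Helper82.TGX

open WeierstrassCurve Height
open Pool.Agent.Helper29.BL Pool.Agent.Helper42.SG
open Pool.Agent.Helper60.T3 (WL zd IP)
open Pool.Agent.Helper42.TGX Pool.Agent.Helper60.SG2

noncomputable section

theorem dB_map {k F : Type} [Field k] [Field F] [Algebra k F] (W : Affine k) :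
    dB (WL F W) = (dB W).map (algebraMap k F) := by
  unfold dB WL
  simp only [WeierstrassCurve.map_b₂, WeierstrassCurve.map_b₄, WeierstrassCurve.map_b₆,
    Polynomial.map_add, Polynomial.map_mul, Polynomial.map_pow, Polynomial.map_C,
    Polynomial.map_X, map_mul, map_ofNat, Polynomial.map_ofNat]

theorem dA_map {k F : Type} [Field k] [Field F] [Algebra k F] (W : Affine k) :
    dA (WL F W) = (dA W).map (algebraMap k F) := by
  unfold dA WL
  simp only [WeierstrassCurve.map_b₄, WeierstrassCurve.map_b₆, WeierstrassCurve.map_b₈,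
    Polynomial.map_sub, Polynomial.map_mul, Polynomial.map_pow, Polynomial.map_C,
    Polynomial.map_X, map_mul, map_ofNat, Polynomial.map_ofNat]

theorem Bf_map {k F : Type} [Field k] [Field F] [Algebra k F] (W : Affine k) (x : k) :
    Bf (WL F W) (algebraMap k F x) = algebraMap k F (Bf W x) := by
  unfold Bf WL
  simp only [WeierstrassCurve.map_b₂, WeierstrassCurve.map_b₄, WeierstrassCurve.map_b₆,
    map_add, map_mul, map_pow, map_ofNat]

/-- a number field in which a given element is a square -/
theorem exists_sqrt (k : Type) [Field k] [NumberField k] (b : k) :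
    ∃ (k' : Type) (_ : Field k') (_ : NumberField k') (_ : Algebra k k') (y : k'),
      y ^ 2 = algebraMap k k' b := by
  let f : k[X] := X ^ 2 - C b
  have hdeg : f.natDegree = 2 := natDegree_X_pow_sub_C
  have hf : f ≠ 0 := by
    intro h
    rw [h, natDegree_zero] at hdeg
    exact absurd hdeg (by norm_num)
  haveI hi : Fact (Irreducible f.factor) := ⟨Polynomial.irreducible_factor f⟩
  have hfin : FiniteDimensional k (AdjoinRoot f.factor) :=
    (AdjoinRoot.powerBasis hi.out.ne_zero).finite
  haveI : CharZero (AdjoinRoot f.factor) :=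
    charZero_of_injective_algebraMap (algebraMap k (AdjoinRoot f.factor)).injective
  have hnf : NumberField (AdjoinRoot f.factor) := by
    haveI : IsScalarTower ℚ k (AdjoinRoot f.factor) := inferInstance
    haveI : FiniteDimensional ℚ (AdjoinRoot f.factor) :=
      FiniteDimensional.trans ℚ k (AdjoinRoot f.factor)
    exact {}
  refine ⟨AdjoinRoot f.factor, inferInstance, hnf, inferInstance, AdjoinRoot.root f.factor, ?_⟩
  have h1 : aeval (AdjoinRoot.root f.factor) f = 0 := by
    have hd : f.factor ∣ f := Polynomial.factor_dvd_of_natDegree_ne_zero (by rw [hdeg]; norm_num)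
    obtain ⟨g, hg⟩ := hd
    have h2 : aeval (AdjoinRoot.root f.factor) f.factor = 0 := by
      rw [AdjoinRoot.aeval_eq, AdjoinRoot.mk_self]
    have h4 : aeval (AdjoinRoot.root f.factor) f =
        aeval (AdjoinRoot.root f.factor) (f.factor * g) :=
      congrArg (aeval (AdjoinRoot.root f.factor)) hg
    rw [h4, map_mul, h2, zero_mul]
  have h3 : aeval (AdjoinRoot.root f.factor) f =
      AdjoinRoot.root f.factor ^ 2 - algebraMap k _ b := by
    simp only [f, map_sub, map_pow, aeval_X, aeval_C]
  rw [h3, sub_eq_zero] at h1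
  exact h1

theorem t_NT (h : DUPC) : NT := by
  classical
  intro k _ _ W hW
  obtain ⟨hcop, hdA, hdB⟩ := h.1 k W hW
  have hB0 : dB W ≠ 0 := by
    intro h0
    rw [h0, natDegree_zero] at hdB
    exact absurd hdB (by norm_num)
  obtain ⟨C, hC⟩ := Pool.Agent.Helper4.TG.HTAB.t k (dA W) (dB W) hcop hB0 (by rw [hdA, hdB]; norm_num)
  rw [hdA] at hC
  -- the bound of the heights of the roots
  obtain ⟨M, hM⟩ := ((dB W).roots.toFinset.finite_toSet.image
    (fun x : k => logHeight₁ x)).bddAbove
  have hM' : ∀ x : k, eval x (dB W) = 0 → logHeight₁ x ≤ M := fun x hx =>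
    hM ⟨x, by
      rw [Finset.mem_coe, Multiset.mem_toFinset, mem_roots hB0]
      exact hx, rfl⟩
  set N : ℝ := max M ((C + 1) / 3) with hN
  -- the first point
  haveI : Infinite k := Infinite.of_injective (fun n : ℕ => (n : k)) Nat.cast_injective
  obtain ⟨x₀, hx₀⟩ : ∃ x : k, N < logHeight₁ x := by
    have hfin : {x : k | logHeight₁ x ≤ N}.Finite := Northcott.finite_le N
    obtain ⟨x, hx⟩ := hfin.exists_notMem
    exact ⟨x, not_le.1 hx⟩
  let xs : ℕ → k := fun m => Nat.rec x₀ (fun _ x => eval x (dA W) / eval x (dB W)) m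
  have hxs : ∀ m, xs (m + 1) = eval (xs m) (dA W) / eval (xs m) (dB W) := fun m => rfl
  have hgood : ∀ x : k, N < logHeight₁ x → eval x (dB W) ≠ 0 ∧
      logHeight₁ x + 1 ≤ logHeight₁ (eval x (dA W) / eval x (dB W)) := by
    intro x hx
    have h1 : eval x (dB W) ≠ 0 := fun h0 =>
      absurd (hM' x h0) (not_le.2 ((le_max_left _ _).trans_lt hx))
    refine ⟨h1, ?_⟩
    have h2 := (abs_le.1 (hC x h1)).1
    have h3 : (C + 1) / 3 < logHeight₁ x := (le_max_right _ _).trans_lt hx
    push_cast at h2
    linarith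
  have hbig : ∀ m, N < logHeight₁ (xs m) := by
    intro m
    induction m with
    | zero => exact hx₀
    | succ m ih =>
      rw [hxs]
      linarith [(hgood _ ih).2]
  have hmono : StrictMono fun m => logHeight₁ (xs m) := strictMono_nat_of_lt_succ fun m => by
    change logHeight₁ (xs m) < logHeight₁ (xs (m + 1))
    rw [hxs]
    linarith [(hgood _ (hbig m)).2]
  have hinj : Function.Injective xs := fun a b hab =>
    hmono.injective (congrArg (fun x => logHeight₁ x) hab)
  -- the field
  obtain ⟨k', _, _, _, y, hy⟩ := exists_sqrt k (Bf W x₀)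
  haveI : W.IsElliptic := hW
  haveI hW' : (WL k' W).IsElliptic := inferInstance
  obtain ⟨P, hP0, hPx, -⟩ := nzt_pt (WL k' W) (algebraMap k k' x₀) y (by rw [Bf_map, hy])
  refine ⟨k', inferInstance, inferInstance, Classical.decEq _, inferInstance, P, ?_⟩
  intro H c₀ hH
  have hdup := fun Q => h.2 k' (WL k' W) hW' Q
  have hpts : ∀ m : ℕ, (2 ^ m : ℕ) • P ≠ 0 ∧ xc ((2 ^ m : ℕ) • P) = algebraMap k k' (xs m) := by
    intro m
    induction m with
    | zero =>
      rw [pow_zero, one_smul]
      exact ⟨hP0, hPx⟩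
    | succ m ih =>
      obtain ⟨h1, h2⟩ := hdup _ ih.1
      have e1 : eval (xc ((2 ^ m : ℕ) • P)) (dB (WL k' W)) =
          algebraMap k k' (eval (xs m) (dB W)) := by
        rw [ih.2, dB_map, eval_map_algebraMap, aeval_algebraMap_apply_eq_algebraMap_eval]
      have e2 : eval (xc ((2 ^ m : ℕ) • P)) (dA (WL k' W)) =
          algebraMap k k' (eval (xs m) (dA W)) := by
        rw [ih.2, dA_map, eval_map_algebraMap, aeval_algebraMap_apply_eq_algebraMap_eval]
      have h3 : eval (xs m) (dB W) ≠ 0 := (hgood _ (hbig m)).1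
      have h4 : algebraMap k k' (eval (xs m) (dB W)) ≠ 0 := by
        rw [Ne, map_eq_zero]; exact h3
      have h5 : (2 ^ m : ℕ) • P + (2 ^ m : ℕ) • P ≠ 0 := by
        rw [Ne, h1, e1]
        exact h4
      have h6 := h2 h5
      rw [e1, e2] at h6
      have e3 : (2 ^ (m + 1) : ℕ) • P = (2 ^ m : ℕ) • P + (2 ^ m : ℕ) • P := by
        rw [← add_nsmul, pow_succ, mul_two]
      rw [e3]
      refine ⟨h5, ?_⟩
      rw [hxs, map_div₀, eq_div_iff h4]
      exact h6
  by_contra hneg
  have hH0 : H P = 0 := le_antisymm (not_lt.1 hneg) (hH.quad.nonneg P)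
  have hbd : ∀ m : ℕ, logHeight₁ (algebraMap k k' (xs m)) ≤ c₀ := by
    intro m
    have h1 := hH.near ((2 ^ m : ℕ) • P)
    rw [hH.quad.nsmul, hH0, mul_zero, zero_sub, abs_neg] at h1
    have h2 := (le_abs_self _).trans h1
    unfold hx at h2
    rwa [(hpts m).2] at h2
  have hfin : {x : k' | logHeight₁ x ≤ c₀}.Finite := Northcott.finite_le c₀
  have hinj' : Function.Injective fun m => algebraMap k k' (xs m) :=
    (algebraMap k k').injective.comp hinj
  exact Set.infinite_of_injective_forall_mem hinj' hbd hfin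

end

end Pool.Agent.Helper82.TGX
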